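import Mathlib
import Pool.Agent.Lib.MP_90787a_nt.J.Final
import Pool.Agent.Lib.MP_90787a_nt.J.Geom
import Pool.Agent.Lib.MP_90787a_nt.J.GeomMain

/-!
# MP_90787a_nt: the Morton–Silverman conjecture for compositions of Möbius maps, bicritical maps
and polynomials invertible by radicals

For all `D` and `d ≥ 2` there is a bound `κ`, depending only on `D` and `d`, for the number of
`K`-rational preperiodic points of every map of degree `d` in the class `CompG D d` over every
number field `K` of degree `D`. The maps have arbitrarily many parameters; there is no condition on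
the reduction of the map.
-/

set_option autoImplicit false

namespace Pool.Agent.Results.MP_90787a_nt.ExceptionalCompositions

open Pool.Agent.MP90787a.J

theorem result (D d : ℕ) (hd : 2 ≤ d) : ∃ κ : ℕ,
    ∀ (K : Type) [Field K] [NumberField K] [DecidableEq K], Module.finrank ℚ K = D →
      ∀ F : OnePoint K → OnePoint K, CompG D d F →
        {x : OnePoint K | ∃ i j : ℕ, j < i ∧ F^[i] x = F^[j] x}.encard ≤ κ := by
  obtain ⟨κ, hκ⟩ := main D d hd
  refine ⟨κ, ?_⟩
  intro K _ _ _ hK F hF
  have hD : 1 ≤ D := by
    have h : 0 < Module.finrank ℚ K := Module.finrank_pos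
    omega
  exact hκ K hK F (comp_of_compG D d hD F hF)

end Pool.Agent.Results.MP_90787a_nt.ExceptionalCompositions
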