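import Pool.Agent.Lib.MP_90787a_nt.P1.Final

/-!
Uniform bounds for rational maps of degree `d` over a number field `K` which have potentially good
or expanding reduction at all finite places outside a finite set `S`, and explicit maps of this
kind.
-/

set_option autoImplicit false

namespace Pool.Agent.Results.MP_90787a_nt.ExpandingRationalMaps

open Polynomial NumberField Pool.Agent.MP90787a.P1

theorem result (K : Type) [Field K] [NumberField K] (S : Finset (FinitePlace K)) (d m : ℕ)
    (hd : 2 ≤ d) (hm : 3 ≤ m) :
    (∀ q₀ b : ℕ, ∃ B : ℕ, ∀ p q : K[X], IsCoprime p q → max p.natDegree q.natDegree = d →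
      NiceR S m q₀ b p q d → Bdd B (Even m ∨ Sym (rmap p q d)) (rmap p q d)) ∧
    ∃ b : ℕ, ∀ p q : K[X], Fam S d m p q →
      IsCoprime p q ∧ max p.natDegree q.natDegree = d ∧ NiceR S m d b p q d :=
  ⟨fun q₀ b => main K d m q₀ b hd hm S, _, fun _ _ h => h.nice hd⟩

end Pool.Agent.Results.MP_90787a_nt.ExpandingRationalMaps
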