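import Pool.Agent.Lib.MP_90787a_nt.RF.Main2

set_option autoImplicit false

/-!
The number of preperiodic points in `K` of a rational map of degree `d` over a number field `K` of
degree `D` is at most `C (s + 1) log (s + 2)`, where `s` is the cardinality of any set `S` of
finite places such that the finite places outside `S` without potentially good reduction have
total weight at most `σ` times one plus the weight carried by `S` and the archimedean places.
For instance `S` can be the set of all finite places without potentially good reduction.
The constant `C` depends only on `D`, `d` and `σ`.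
-/

namespace Pool.Agent.Results.MP_90787a_nt.RationalMaps

open Polynomial NumberField Pool.Agent.UBC90787a

theorem result (D d : ℕ) (hD : 1 ≤ D) (hd : 2 ≤ d) (σ : ℝ) : ∃ C : ℝ,
    ∀ (K : Type) [Field K] [NumberField K], Module.finrank ℚ K = D →
      ∀ p q : K[X], IsCoprime p q → max p.natDegree q.natDegree = d →
      ∀ F : K × K → K × K,
        (∀ v : K × K, F v =
          (∑ i ∈ Finset.range (d + 1), p.coeff i * v.1 ^ i * v.2 ^ (d - i),
           ∑ i ∈ Finset.range (d + 1), q.coeff i * v.1 ^ i * v.2 ^ (d - i))) →
      ∀ S : Finset (FinitePlace K),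
      (∀ U : Finset (FinitePlace K), Disjoint U S → (∀ v ∈ U, ¬ PotGoodRed v p q d) →
        ∑ v ∈ U, finWeight v p q d ≤ σ * (1 + ∑ v ∈ S, finWeight v p q d +
          ∑ w : InfinitePlace K, (w.mult : ℝ) * archWeight w.embedding p q d)) →
      ∀ Z : Finset K,
        (∀ x ∈ Z, ∃ i j : ℕ, j < i ∧
          (F^[i] (x, 1)).1 * (F^[j] (x, 1)).2 = (F^[i] (x, 1)).2 * (F^[j] (x, 1)).1) →
      (Z.card : ℝ) ≤ C * (S.card + 1) * Real.log (S.card + 2) :=
  rf_main' D d hD hd σ

end Pool.Agent.Results.MP_90787a_nt.RationalMaps
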