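import Mathlib
import Pool.Agent.Lib.MP_90787a_nt.T.Final

/-!
# MP_90787a_nt: uniform boundedness for unicritical polynomials of degree at least four

Let `K` be a number field, `d ≥ 4`, and `S` a finite set of finite places of `K`. There is a bound
`B` such that every polynomial `a (x - b) ^ d + c` with `a, b, c ∈ K`, `a ≠ 0`, whose leading
coefficient `a` has valuation divisible by `d - 1` at all finite places outside `S`, has at most
`B` preperiodic points in `K`. For `a = 1`, `b = 0`, `S = ∅` this is the family `x ^ d + c`,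
`c ∈ K`.
-/

namespace Pool.Agent.Results.MP_90787a_nt.UnicriticalNumberFields

open NumberField

theorem result (K : Type) [Field K] [NumberField K] (d : ℕ) (hd : 4 ≤ d)
    (S : Finset (FinitePlace K)) :
    ∃ B : ℕ, ∀ a b c : K, a ≠ 0 →
      (∀ v : FinitePlace K, v ∉ S → ∃ e : K, e ≠ 0 ∧ v a = v e ^ (d - 1)) →
      {x : K | ∃ i j : ℕ, i < j ∧ (fun y : K => a * (y - b) ^ d + c)^[i] x =
        (fun y : K => a * (y - b) ^ d + c)^[j] x}.encard ≤ B :=
  Pool.Agent.MP90787a.T.main_unicritical K d hd S

end Pool.Agent.Results.MP_90787a_nt.UnicriticalNumberFields
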